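import Pool.Agent.Work.MP_73831e_pr.F.S4.Defs

/-!
MODULE S4/Adj (S-M).  Elementary facts on merging.

* `mg_b`, `mg_ne`, `mg_eq`, `mg_ne_b`: unfold `mg`, case distinctions.
* `mrg_adj`: by `gr_adj'`: an edge `e ∈ mrg a b D` with `e.1 = s(u, v)` is `Sym2.map (mg a b) f.1` for
  some `f ∈ D`; write `f.1 = s(u', v')` (`Sym2.ind`), `Sym2.map_mk`, and `Sym2.eq_iff` (exchange
  `u'`, `v'` in the second case).  Conversely `u ≠ v` gives the element `⟨s(u, v), _⟩` of `Pr n`.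
* `mrg_adj_mg`: by `mrg_adj`; `mg a b u ≠ mg a b v` by `mg_eq`, as `u ≠ v` and `a, b` are not adjacent.
* `mrg_mono`: immediate.
* `mrg_sdiff_st`: `x ≠ a, b`: then `x = mg a b w` iff `w = x`, so `x ∈ Sym2.map (mg a b) f.1` iff
  `x ∈ f.1` (`Sym2.mem_map`).
-/

open Finset
open scoped Classical Nat

namespace Pool.Agent.Work.MP_73831e_pr.F

variable {n : ℕ}

theorem mg_b (a b : Fin n) : mg a b b = a := by
  unfold mg
  rw [if_pos rfl]

theorem mg_ne {a b v : Fin n} (h : v ≠ b) : mg a b v = v := by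
  unfold mg
  rw [if_neg h]

theorem mg_eq {a b u v : Fin n} (h : mg a b u = mg a b v) :
    u = v ∨ (u = a ∧ v = b) ∨ (u = b ∧ v = a) := by
  unfold mg at h
  split_ifs at h with h1 h2 h2
  · exact Or.inl (h1.trans h2.symm)
  · exact Or.inr (Or.inr ⟨h1, h.symm⟩)
  · exact Or.inr (Or.inl ⟨h, h2⟩)
  · exact Or.inl h

theorem mg_ne_b {a b : Fin n} (hab : a ≠ b) (v : Fin n) : mg a b v ≠ b := by
  unfold mg
  split_ifs with h
  · exact hab
  · exact h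

theorem mrg_adj {a b : Fin n} {D : Finset (Pr n)} {u v : Fin n} :
    (gr (mrg a b D)).Adj u v ↔
      u ≠ v ∧ ∃ u' v', (gr D).Adj u' v' ∧ mg a b u' = u ∧ mg a b v' = v := by
  constructor
  · intro h
    refine ⟨h.ne, ?_⟩
    rw [gr_adj'] at h
    obtain ⟨e, he, heq⟩ := h
    simp only [mrg, mem_filter, mem_univ, true_and] at he
    obtain ⟨f, hf, hfe⟩ := he
    obtain ⟨⟨u', v'⟩, huv⟩ : ∃ z : Fin n × Fin n, s(z.1, z.2) = f.1 := by
      induction hq : f.1 using Sym2.ind with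
      | _ x y => exact ⟨(x, y), rfl⟩
    simp only at huv
    rw [← huv, heq, Sym2.map_mk] at hfe
    have hadj : (gr D).Adj u' v' := gr_adj'.2 ⟨f, hf, huv.symm⟩
    rcases Sym2.eq_iff.mp hfe with ⟨h1, h2⟩ | ⟨h1, h2⟩
    · exact ⟨u', v', hadj, h1, h2⟩
    · exact ⟨v', u', hadj.symm, h2, h1⟩
  · rintro ⟨hne, u', v', hadj, h1, h2⟩
    rw [gr_adj'] at hadj ⊢
    obtain ⟨f, hf, hfe⟩ := hadj
    refine ⟨⟨s(u, v), fun hd => hne (Sym2.mk_isDiag_iff.mp hd)⟩, ?_, rfl⟩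
    simp only [mrg, mem_filter, mem_univ, true_and]
    refine ⟨f, hf, ?_⟩
    rw [hfe, Sym2.map_mk, h1, h2]

theorem mrg_adj_mg {a b : Fin n} {D : Finset (Pr n)} (hab : ¬ (gr D).Adj a b) {u v : Fin n}
    (h : (gr D).Adj u v) : (gr (mrg a b D)).Adj (mg a b u) (mg a b v) := by
  rw [mrg_adj]
  refine ⟨?_, u, v, h, rfl, rfl⟩
  intro he
  rcases mg_eq he with h1 | ⟨h1, h2⟩ | ⟨h1, h2⟩
  · exact h.ne h1
  · rw [h1, h2] at h
    exact hab h
  · rw [h1, h2] at h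
    exact hab h.symm

theorem mrg_mono (a b : Fin n) {D E : Finset (Pr n)} (h : D ⊆ E) : mrg a b D ⊆ mrg a b E := by
  intro e he
  simp only [mrg, mem_filter, mem_univ, true_and] at he ⊢
  obtain ⟨f, hf, hfe⟩ := he
  exact ⟨f, h hf, hfe⟩

private theorem mem_map_mg {a b x : Fin n} (hxa : x ≠ a) (hxb : x ≠ b) (z : Sym2 (Fin n)) :
    x ∈ Sym2.map (mg a b) z ↔ x ∈ z := by
  rw [Sym2.mem_map]
  constructor
  · rintro ⟨w, hw, hwx⟩
    have : w = x := by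
      unfold mg at hwx
      split_ifs at hwx with h
      · exact absurd hwx.symm hxa
      · exact hwx
    rwa [← this]
  · intro h
    exact ⟨x, h, mg_ne hxb⟩

theorem mrg_sdiff_st {a b x : Fin n} (hxa : x ≠ a) (hxb : x ≠ b) (D : Finset (Pr n)) :
    mrg a b D \ st x = mrg a b (D \ st x) := by
  ext e
  simp only [mrg, st, mem_sdiff, mem_filter, mem_univ, true_and]
  constructor
  · rintro ⟨⟨f, hf, hfe⟩, hx⟩
    refine ⟨f, ⟨hf, fun h => hx ?_⟩, hfe⟩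
    rw [← hfe]
    exact (mem_map_mg hxa hxb _).2 h
  · rintro ⟨f, ⟨hf, hx⟩, hfe⟩
    refine ⟨⟨f, hf, hfe⟩, fun h => hx ?_⟩
    rw [← hfe] at h
    exact (mem_map_mg hxa hxb _).1 h

end Pool.Agent.Work.MP_73831e_pr.F
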