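import Pool.Agent.Work.MP_73831e_pr.F.S4.Spn
import Pool.Agent.Work.MP_73831e_pr.F.S4.UqE2

/-!
MODULE S4/BigUm (S-M).  Uniquely colourable subgraphs of the merged graph have linear size.

Let `H ≤ gr (mrg a b E)`, `UQ (m+1) H W`, `w = |W| ≥ M ≥ 6`; suppose `w ≤ n / (2 K₁) + 1`.
Put `S = insert b W`: `w ≤ |S| ≤ w + 1 ≤ n / (2 K₁) + 2 ≤ n / K₁ + 1` (with `q = n / (2 K₁) ≥ 1`,
`n / K₁ ≥ 2 q ≥ q + 1`).  By `Sparse`, `4 spn (gr E) S < 5 |S| ≤ 5 w + 5`.  The edges of `H` are edges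
of `gr (mrg a b E)` inside `W`, so `|E(H)| ≤ spn (gr (mrg a b E)) W ≤ spn (gr E) S` (`spn_mrg`; compare
`sparse_um`), and `2 w ≤ |E(H)| + 3` by `uq_edges2`.  So `8 w - 12 < 5 w + 5`, `w ≤ 5`, contradiction.
-/

open Finset
open scoped Classical Nat

namespace Pool.Agent.Work.MP_73831e_pr.F

theorem mrg_bigUm {n m M K₁ : ℕ} (hm : 2 ≤ m) (hM : 6 ≤ M) (hK1 : 1 ≤ K₁) (hn : 2 * K₁ ≤ n)
    {a b : Fin n} {E : Finset (Pr n)} (hsp : Sparse (n / K₁) (gr E))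
    (h : Um (m + 1) M (gr (mrg a b E))) : Um (m + 1) (n / (2 * K₁) + 2) (gr (mrg a b E)) := by
  sorry

end Pool.Agent.Work.MP_73831e_pr.F
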