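import Pool.Agent.Work.MP_73831e_pr.F.S4.Adj

/-!
MODULE S4/CardM (S-M).  Merging two vertices with a common neighbour decreases the number of edges.

For every `e ∈ mrg a b D` choose `f e ∈ D` with `Sym2.map (mg a b) (f e).1 = e.1`; `f` is injective.
The edges `s(x, a)` and `s(x, b)` of `D` are different and have the same image `s(x, a)`
(`x ≠ a`, `x ≠ b`), so they are not both in the image of `f`.  Hence `|mrg a b D| < |D|`.
-/

open Finset
open scoped Classical Nat

namespace Pool.Agent.Work.MP_73831e_pr.F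

variable {n : ℕ}

theorem mrg_card_lt {a b x : Fin n} {D : Finset (Pr n)} (hab : a ≠ b) (ha : a ∈ nb D x)
    (hb : b ∈ nb D x) : (mrg a b D).card < D.card := by
  classical
  have hxa : (gr D).Adj x a := by simpa [nb] using ha
  have hxb : (gr D).Adj x b := by simpa [nb] using hb
  have hnb : x ≠ b := hxb.ne
  obtain ⟨e₁, he₁, h₁⟩ := gr_adj'.mp hxa
  obtain ⟨e₂, he₂, h₂⟩ := gr_adj'.mp hxb
  have key : ∀ e : Pr n, e ∈ mrg a b D → ∃ f ∈ D, Sym2.map (mg a b) f.1 = e.1 := by
    intro e he
    simpa [mrg] using he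
  choose! F hF using key
  have hinj : Set.InjOn F (mrg a b D : Set (Pr n)) := by
    intro e he e' he' hee
    have h := (hF e he).2
    have h' := (hF e' he').2
    rw [hee] at h
    exact Subtype.ext (h.symm.trans h')
  have hsub : (mrg a b D).image F ⊆ D := by
    intro f hf
    obtain ⟨e, he, rfl⟩ := Finset.mem_image.mp hf
    exact (hF e he).1
  have hm₁ : Sym2.map (mg a b) e₁.1 = s(x, a) := by
    rw [h₁, Sym2.map_mk, mg_ne hnb, mg_ne hab]
  have hm₂ : Sym2.map (mg a b) e₂.1 = s(x, a) := by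
    rw [h₂, Sym2.map_mk, mg_ne hnb, mg_b]
  have hne : e₁ ≠ e₂ := by
    intro h
    rw [h, h₂] at h₁
    rcases Sym2.eq_iff.mp h₁ with ⟨_, h⟩ | ⟨h, h'⟩
    · exact hab h.symm
    · exact hab (h'.trans h).symm
  have hcard : ((mrg a b D).image F).card = (mrg a b D).card :=
    Finset.card_image_of_injOn hinj
  rw [← hcard]
  apply Finset.card_lt_card
  refine ⟨hsub, fun hsup => ?_⟩
  obtain ⟨e, he, hfe⟩ := Finset.mem_image.mp (hsup he₁)
  obtain ⟨e', he', hfe'⟩ := Finset.mem_image.mp (hsup he₂)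
  have h := (hF e he).2
  have h' := (hF e' he').2
  rw [hfe, hm₁] at h
  rw [hfe', hm₂] at h'
  have : e = e' := Subtype.ext (h.symm.trans h')
  rw [this, hfe'] at hfe
  exact hne hfe.symm

end Pool.Agent.Work.MP_73831e_pr.F
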