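import Pool.Agent.Work.MP_73831e_pr.F.S4.Col
import Pool.Agent.Work.MP_73831e_pr.F.S4.BigUm
import Pool.Agent.Work.MP_73831e_pr.Nbr

/-!
MODULE S4/Cl (S-M).  If merging `a, b` leads out of `Fa`, then the colourings with `f a = f b` form one
cluster.

If the merged graph is not `(m+1)`-colourable, then there is no proper `f` with `f a = f b` (`pc_mrg`);
take `C i = univ` (`n ≤ 2 K₃ n` as `K₃ ≥ 1`).  Otherwise `Um (m+1) M` holds for it, hence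
`Um (m+1) (n / (2 K₁) + 2)` (`mrg_bigUm`), and `DegOK (4 K₁) (2 K₃)` holds by `deg_mrg`.  Apply `classes`
(Nbr) with `K₁ := 2 K₁`, `K₃ := 2 K₃` (`2 (2 K₁) ≤ 2 K₃`, `m + 1 ≤ n / (2 K₁) + 2`): `IsCl (2 K₃) _ C`;
`IsCl.big` is `Big (2 K₃) C`, and `IsCl.col` applied to `f` (`pc_mrg`) is `Cst C f`.
-/

open Finset
open scoped Classical Nat

namespace Pool.Agent.Work.MP_73831e_pr.F

theorem mrg_cl {n m M K₁ K₃ : ℕ} (hm : 2 ≤ m) (hM : 6 ≤ M) (hK1 : 1 ≤ K₁) (hK3 : 4 * K₁ ≤ K₃)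
    (hn : 2 * K₁ ≤ n) (hn' : m ≤ n / (2 * K₁) + 1) {a b : Fin n} {E : Finset (Pr n)}
    (hsp : Sparse (n / K₁) (gr E)) (hdeg : DegOK (4 * K₁) K₃ (gr E))
    (hE : ¬ Fa m M (mrg a b E)) :
    ∃ C : Fin m → Finset (Fin n), Big (2 * K₃) C ∧
      ∀ f, PC (m + 1) (gr E) f → f a = f b → Cst C f := by
  sorry

end Pool.Agent.Work.MP_73831e_pr.F
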