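import Pool.Agent.Work.MP_73831e_pr.F.Mass

/-!
MODULE S4/CluOf (S).  Clusters indexed by a finite set.

Let `e : P → Fin R` be injective (`|P| ≤ R`; e.g. `P.equivFin` followed by `Fin.castLE`).  Define the
family of `r` as `C p` if `r = e p`, and as `fun _ => univ` if `r` is not in the range of `e`
(`n ≤ K n` as `K ≥ 1`).
-/

open Finset
open scoped Classical Nat

namespace Pool.Agent.Work.MP_73831e_pr.F

theorem clu_of {n m R K : ℕ} (hK : 1 ≤ K) {ι : Type} (P : Finset ι) (hP : P.card ≤ R)
    (C : ι → Fin m → Finset (Fin n)) (hC : ∀ p ∈ P, Big K (C p)) {E : Finset (Pr n)}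
    (h : ∀ f, PC (m + 1) (gr E) f → ∃ p ∈ P, Cst (C p) f) : Clu m R K E := by
  classical
  set e : ↥P → Fin R := fun p => Fin.castLE hP (P.equivFin p) with he
  have hinj : Function.Injective e := by
    intro p q hpq
    have := Fin.castLE_injective hP hpq
    exact P.equivFin.injective this
  refine ⟨fun r => if hr : ∃ p : ↥P, e p = r then C (hr.choose : ι) else fun _ => univ, ?_, ?_⟩
  · intro r
    by_cases hr : ∃ p : ↥P, e p = r
    · simp only [hr, dif_pos]
      exact hC _ hr.choose.2
    · simp only [hr, dif_neg, not_false_eq_true]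
      intro i
      simp only [card_univ, Fintype.card_fin]
      exact Nat.le_mul_of_pos_left n hK
  · intro f hf
    obtain ⟨p, hp, hcst⟩ := h f hf
    refine ⟨e ⟨p, hp⟩, ?_⟩
    have hr : ∃ q : ↥P, e q = e ⟨p, hp⟩ := ⟨_, rfl⟩
    have h1 : hr.choose = ⟨p, hp⟩ := hinj hr.choose_spec
    simp only [hr, dif_pos]
    rw [h1]
    exact hcst

end Pool.Agent.Work.MP_73831e_pr.F
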