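import Pool.Agent.Work.MP_73831e_pr.F.S4.Adj

/-!
MODULE S4/Col (S).  Colourings and merging.

* `pc_mrg`: let `u, v` be adjacent in the merged graph; by `mrg_adj` there are adjacent `u', v'` with
  `mg a b u' = u`, `mg a b v' = v`; `f (mg a b w) = f w` for all `w`, since `f a = f b`.
* `pc_unmrg`: by `mrg_adj_mg`.
-/

open Finset
open scoped Classical Nat

namespace Pool.Agent.Work.MP_73831e_pr.F

variable {n : ℕ}

theorem pc_mrg {k : ℕ} {a b : Fin n} {E : Finset (Pr n)} {f : Fin n → Fin k}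
    (hf : PC k (gr E) f) (hab : f a = f b) : PC k (gr (mrg a b E)) f := by
  intro u v huv
  obtain ⟨-, u', v', h1, hu, hv⟩ := mrg_adj.mp huv
  have key : ∀ w, f (mg a b w) = f w := by
    intro w
    unfold mg
    split_ifs with h
    · rw [h, hab]
    · rfl
  rw [← hu, ← hv, key, key]
  exact hf u' v' h1

theorem pc_unmrg {k : ℕ} {a b : Fin n} {E : Finset (Pr n)} (hab : ¬ (gr E).Adj a b)
    {g : Fin n → Fin k} (hg : PC k (gr (mrg a b E)) g) :
    PC k (gr E) (fun v => g (mg a b v)) :=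
  fun _ _ huv => hg _ _ (mrg_adj_mg hab huv)

end Pool.Agent.Work.MP_73831e_pr.F
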