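import Pool.Agent.Work.MP_73831e_pr.F.Mass

/-!
FIXED DEFINITIONS for block S4 (merging two neighbours of a fully critical vertex).
-/

open Finset
open scoped Classical Nat

namespace Pool.Agent.Work.MP_73831e_pr.F

noncomputable section

variable {n : ℕ}

/-- The map which sends `b` to `a` and fixes all other vertices. -/
def mg (a b v : Fin n) : Fin n := if v = b then a else v

/-- The graph `D` with `b` merged into `a` (on the same vertex set; for `a ≠ b` the vertex `b`
becomes isolated). -/
def mrg (a b : Fin n) (D : Finset (Pr n)) : Finset (Pr n) :=
  univ.filter (fun e : Pr n => ∃ f ∈ D, Sym2.map (mg a b) f.1 = e.1)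

end

end Pool.Agent.Work.MP_73831e_pr.F
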