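import Pool.Agent.Work.MP_73831e_pr.F.S4.Adj

/-!
MODULE S4/Dg (M).  Degrees after merging.

* `dg_mono`: `nb A x ⊆ nb D x` (`gr_mono`).
* `nb_mrg` (`x ≠ a, b`): `mrg_adj`; if `mg a b x' = x ≠ a` then `x' = x`; conversely for `u' ∈ nb D x`
  `mg a b u' ≠ x` (`u' ≠ x` and `a ≠ x`).
* `nb_mrg_a`: `mg a b a' = a` iff `a' = a` or `a' = b`; in both cases the other end `u'` is not `b`
  (as `a, b` are not adjacent), so `mg a b u' = u'`.  Conversely for `u ∈ nb D a` or `u ∈ nb D b`: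
  `u ≠ a, b`.
* `ql_mrg`: `dg (mrg a b D) x < dg D x`, as `nb (mrg a b D) x` is the image of `nb D x` under `mg a b`,
  which is not injective on `nb D x` (`mg a b a = mg a b b = a`).  Let `t ∈ nb (mrg a b D) x`; `t` is
  `a` or `t ∈ nb D x`, `t ≠ b`.  For `t = a`: `dg ≤ dg D a + dg D b ≤ 2 K'` by `nb_mrg_a`; for
  `t ≠ a, b`: `dg (mrg a b D) t ≤ dg D t ≤ K'` by `nb_mrg`.
* `hered_ql`: `dg_mono`.
-/

open Finset
open scoped Classical Nat

namespace Pool.Agent.Work.MP_73831e_pr.F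

variable {n : ℕ}

theorem dg_mono {A D : Finset (Pr n)} (h : A ⊆ D) (x : Fin n) : dg A x ≤ dg D x := by
  sorry

theorem nb_mrg {a b x : Fin n} (D : Finset (Pr n)) (hxa : x ≠ a) (hxb : x ≠ b) :
    nb (mrg a b D) x = (nb D x).image (mg a b) := by
  sorry

theorem nb_mrg_a {a b : Fin n} (D : Finset (Pr n)) (hab : a ≠ b) (hadj : ¬ (gr D).Adj a b) :
    nb (mrg a b D) a = nb D a ∪ nb D b := by
  sorry

theorem ql_mrg {j K' : ℕ} {D : Finset (Pr n)} {x a b : Fin n} (ha : a ∈ nb D x)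
    (hb : b ∈ nb D x) (hab : a ≠ b) (hadj : ¬ (gr D).Adj a b) (h : Ql (j + 1) K' D x) :
    Ql j (2 * K') (mrg a b D) x ∧ a ∈ nb (mrg a b D) x ∧ dg (mrg a b D) a ≤ 2 * K' := by
  sorry

theorem hered_ql (j K' : ℕ) : Hered (Ql j K' : Finset (Pr n) → Fin n → Prop) := by
  sorry

end Pool.Agent.Work.MP_73831e_pr.F
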