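import Pool.Agent.Work.MP_73831e_pr.F.S4.Col
import Pool.Agent.Work.MP_73831e_pr.Edges

/-!
MODULE S4/NotFa (M).  Merging two non-adjacent vertices preserves `¬ Fa` (for sparse graphs).

If `gr D` is not `(m+1)`-colourable, then neither is the merged graph (`pc_unmrg`).  Otherwise
`Um (m+1) M (gr D)`, hence (`Um.of_le`, `sparse_um`) there are `H ≤ gr D` and `W` with `UQ (m+1) H W`
and `n / K₁ + 2 ≤ |W|`.  If the merged graph is not `(m+1)`-colourable we are done.  Otherwise let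
`H'` be the graph with `H'.Adj u v ↔ u ≠ v ∧ ∃ u' v', H.Adj u' v' ∧ mg a b u' = u ∧ mg a b v' = v`
(`H' ≤ gr (mrg a b D)` by `mrg_adj`) and `W' = W.image (mg a b)`.  As `mg a b` is injective on
`W.erase b`, `|W'| ≥ |W| - 1 ≥ n / K₁ + 1 ≥ M`.  `UQ (m+1) H' W'`: the edges are inside `W'`; `H'` is
`(m+1)`-colourable, since `gr (mrg a b D)` is; if `f', g'` are proper for `H'` then `f' ∘ mg a b` and
`g' ∘ mg a b` are proper for `H` (for an edge `u v` of `H ≤ gr D`, `mg a b u ≠ mg a b v` by `mg_eq`,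
because `a, b` are not adjacent), so there is `π` with `g' (mg a b w) = π (f' (mg a b w))` on `W`.
Hence `Um (m+1) M (gr (mrg a b D))`.
-/

open Finset
open scoped Classical Nat

namespace Pool.Agent.Work.MP_73831e_pr.F

/-- The merged subgraph. -/
private def nfH {n : ℕ} (H : SimpleGraph (Fin n)) (a b : Fin n) : SimpleGraph (Fin n) where
  Adj u v := u ≠ v ∧ ∃ u' v', H.Adj u' v' ∧ mg a b u' = u ∧ mg a b v' = v
  symm := ⟨fun _ _ h => ⟨h.1.symm, h.2.choose_spec.choose, h.2.choose,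
    h.2.choose_spec.choose_spec.1.symm, h.2.choose_spec.choose_spec.2.2,
    h.2.choose_spec.choose_spec.2.1⟩⟩
  loopless := ⟨fun _ h => h.1 rfl⟩

theorem mrg_notFa {n m M K₁ : ℕ} (hm : 2 ≤ m) (hM : 4 ≤ M) (hn : M ≤ n / K₁ + 1) {a b : Fin n}
    {D : Finset (Pr n)} (hab : ¬ (gr D).Adj a b) (hsp : Sparse (n / K₁) (gr D))
    (hD : ¬ Fa m M D) : ¬ Fa m M (mrg a b D) := by
  rintro ⟨hal', hum'⟩
  obtain ⟨g, hg⟩ := hal'
  have hal : Alive (m + 1) (gr D) := ⟨fun v => g (mg a b v), pc_unmrg hab hg⟩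
  have hUm : Um (m + 1) M (gr D) := by
    by_contra h
    exact hD ⟨hal, h⟩
  obtain ⟨H, hH, W, hW, hin, hHal, hHu⟩ := sparse_um (by omega) hsp (Um.of_le hM hUm)
  apply hum'
  have hle : nfH H a b ≤ gr (mrg a b D) := by
    intro u v huv
    obtain ⟨hne, u', v', hadj, h1, h2⟩ := huv
    exact mrg_adj.2 ⟨hne, u', v', hH hadj, h1, h2⟩
  have hpull : ∀ f : Fin n → Fin (m + 1), PC (m + 1) (nfH H a b) f →
      PC (m + 1) H (fun v => f (mg a b v)) := by
    intro f hf u v huv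
    refine hf _ _ ⟨?_, u, v, huv, rfl, rfl⟩
    intro heq
    rcases mg_eq heq with h | ⟨h1, h2⟩ | ⟨h1, h2⟩
    · exact huv.ne h
    · rw [h1, h2] at huv
      exact hab (hH huv)
    · rw [h1, h2] at huv
      exact hab (hH huv).symm
  refine ⟨nfH H a b, hle, W.image (mg a b), ?_, ?_, ⟨g, hg.anti hle⟩, ?_⟩
  · have h1 : W.erase b ⊆ W.image (mg a b) := by
      intro v hv
      rw [mem_erase] at hv
      rw [mem_image]
      exact ⟨v, hv.2, mg_ne hv.1⟩
    have h2 := card_le_card h1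
    have h3 := pred_card_le_card_erase (s := W) (a := b)
    omega
  · intro u v huv
    obtain ⟨_, u', v', hadj, h1, h2⟩ := huv
    obtain ⟨h3, h4⟩ := hin u' v' hadj
    exact ⟨mem_image.2 ⟨u', h3, h1⟩, mem_image.2 ⟨v', h4, h2⟩⟩
  · intro f f' hf hf'
    obtain ⟨π, hπ⟩ := hHu _ _ (hpull f hf) (hpull f' hf')
    refine ⟨π, fun w hw => ?_⟩
    obtain ⟨v, hv, rfl⟩ := mem_image.1 hw
    exact hπ v hv

end Pool.Agent.Work.MP_73831e_pr.F
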