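import Pool.Agent.Work.MP_73831e_pr.F.S4.Cl
import Pool.Agent.Work.MP_73831e_pr.F.S4.CluOf
import Pool.Agent.Work.MP_73831e_pr.F.S2.Disc

/-!
MODULE S4/Pick (M).  A fully critical vertex of degree `≥ m + 2` has two neighbours which can be merged.

Put `E₀ = D \ st x`, `E₀ ⊆ D`, so `Sparse` and `DegOK` hold for `gr E₀` (`Ty.anti` or `Sparse.anti`,
`DegOK.anti`).  Suppose the conclusion is false.  For every pair `(a, b)` of different neighbours of `x`
which are not adjacent in `gr D` we have `¬ Fa m M (mrg a b E₀)`, so `mrg_cl` gives a family `C (a, b)`,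
`Big (2 K₃)`, such that all proper colourings `f` of `gr E₀` with `f a = f b` are `Cst (C (a, b))`.
For the other pairs put `C (a, b) = fun _ => univ`.
Let `f` be a proper colouring of `gr E₀`.  As `|nb D x| ≥ m + 2` there are different `a, b ∈ nb D x`
with `f a = f b` (pigeonhole); they are not adjacent in `gr E₀`, hence not in `gr D`: an edge `s(a, b)`
of `D` is not in `st x`, as `a, b ≠ x`.  So `Cst (C (a, b)) f`.  By `clu_of` with
`P = nb D x ×ˢ nb D x`, `|P| ≤ (j + 1) ^ 2`: `Clu m ((j + 1) ^ 2) (2 K₃) E₀`.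
Let `y ∈ nb D x` (`hfc`), `e` the edge `s(x, y)` of `D`: `E₀ ⊆ D.erase e`, so
`Clu m ((j + 1) ^ 2) (2 K₃) (D.erase e)` by `Clu.mono` (K/Small), contradicting `hgp`.
-/

open Finset
open scoped Classical Nat

namespace Pool.Agent.Work.MP_73831e_pr.F

theorem pick {n m M K₁ K₃ K₄ L j : ℕ} (hm : 2 ≤ m) (hM : 6 ≤ M) (hK1 : 1 ≤ K₁)
    (hK3 : 4 * K₁ ≤ K₃) (hn : 2 * K₁ ≤ n) (hn' : m ≤ n / (2 * K₁) + 1)
    {D : Finset (Pr n)} {x : Fin n} (hfc : FC m M D x)
    (hgp : Gp K₁ K₃ K₄ L m ((j + 1) ^ 2) (2 * K₃) D x) (hdg : dg D x ≤ j + 1)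
    (hj : m + 2 ≤ dg D x) :
    ∃ a ∈ nb D x, ∃ b ∈ nb D x, a ≠ b ∧ ¬ (gr D).Adj a b ∧ Fa m M (mrg a b (D \ st x)) := by
  by_contra hcon
  have hcon' : ∀ a ∈ nb D x, ∀ b ∈ nb D x, a ≠ b → ¬ (gr D).Adj a b →
      ¬ Fa m M (mrg a b (D \ st x)) := by
    intro a ha b hb hab hadj hF
    exact hcon ⟨a, ha, b, hb, hab, hadj, hF⟩
  have hsub : D \ st x ⊆ D := sdiff_subset
  have hTy := hgp.1
  have hsp : Sparse (n / K₁) (gr (D \ st x)) := hTy.sp.anti (gr_mono hsub)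
  have hdeg : DegOK (4 * K₁) K₃ (gr (D \ st x)) := hTy.deg.anti (gr_mono hsub)
  have hcl : ∀ p : Fin n × Fin n, ∃ C : Fin m → Finset (Fin n), Big (2 * K₃) C ∧
      (p.1 ∈ nb D x → p.2 ∈ nb D x → p.1 ≠ p.2 → ¬ (gr D).Adj p.1 p.2 →
        ∀ f, PC (m + 1) (gr (D \ st x)) f → f p.1 = f p.2 → Cst C f) := by
    intro p
    by_cases h : p.1 ∈ nb D x ∧ p.2 ∈ nb D x ∧ p.1 ≠ p.2 ∧ ¬ (gr D).Adj p.1 p.2
    · obtain ⟨C, hC1, hC2⟩ := mrg_cl hm hM hK1 hK3 hn hn' hsp hdeg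
        (hcon' p.1 h.1 p.2 h.2.1 h.2.2.1 h.2.2.2)
      exact ⟨C, hC1, fun _ _ _ _ => hC2⟩
    · refine ⟨fun _ => univ, ?_, fun h1 h2 h3 h4 => absurd ⟨h1, h2, h3, h4⟩ h⟩
      intro i
      rw [card_univ, Fintype.card_fin]
      exact Nat.le_mul_of_pos_left n (by omega)
  choose C hC1 hC2 using hcl
  have hclu : Clu m ((j + 1) ^ 2) (2 * K₃) (D \ st x) := by
    refine clu_of (by omega) (nb D x ×ˢ nb D x) ?_ C (fun p _ => hC1 p) ?_
    · rw [card_product, ← sq]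
      exact Nat.pow_le_pow_left hdg 2
    · intro f hf
      have hcard : (univ : Finset (Fin (m + 1))).card < (nb D x).card := by
        rw [card_univ, Fintype.card_fin]
        unfold dg at hj
        omega
      obtain ⟨a, ha, b, hb, hab, hfab⟩ := exists_ne_map_eq_of_card_lt_of_maps_to hcard
        (f := f) (fun _ _ => mem_coe.2 (mem_univ _))
      refine ⟨(a, b), mem_product.2 ⟨ha, hb⟩, ?_⟩
      refine hC2 (a, b) ha hb hab ?_ f hf hfab
      intro hadj
      have hax : x ≠ a := by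
        unfold nb at ha
        exact (mem_filter.1 ha).2.ne
      have hbx : x ≠ b := by
        unfold nb at hb
        exact (mem_filter.1 hb).2.ne
      obtain ⟨e, he, hex⟩ := gr_adj'.1 hadj
      have h1 : (gr (D \ st x)).Adj a b := by
        refine gr_adj'.2 ⟨e, ?_, hex⟩
        rw [mem_sdiff]
        refine ⟨he, fun hx => ?_⟩
        unfold st at hx
        rw [mem_filter] at hx
        obtain ⟨-, hx⟩ := hx
        rw [hex, Sym2.mem_iff] at hx
        rcases hx with hx | hx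
        · exact hax hx
        · exact hbx hx
      exact hf a b h1 hfab
  obtain ⟨y, hy⟩ := hfc.2.1
  have hxy : (gr D).Adj x y := by
    unfold nb at hy
    exact (mem_filter.1 hy).2
  obtain ⟨e, he, hex⟩ := gr_adj'.1 hxy
  have hxe : x ∈ e.1 := by
    rw [hex]
    exact Sym2.mem_mk_left x y
  refine hgp.2 e he hxe (hclu.mono ?_)
  intro e' he'
  rw [mem_sdiff] at he'
  rw [mem_erase]
  refine ⟨?_, he'.1⟩
  rintro rfl
  apply he'.2
  unfold st
  exact mem_filter.2 ⟨mem_univ _, hxe⟩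

end Pool.Agent.Work.MP_73831e_pr.F
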