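import Pool.Agent.Work.MP_73831e_pr.F.S4.Dg

/-!
MODULE S4/Pre (M).  The number of preimages under merging.

For `D` with `a, b` not adjacent and `mrg a b D = D'` we have `nb D a ⊆ nb D' a` and
`nb D b ⊆ nb D' a` (`nb_mrg_a`).  The map `D ↦ (nb D a, nb D b)` into
`(nb D' a).powerset ×ˢ (nb D' a).powerset` is injective on the set of these `D`: an edge of `D`
containing neither `a` nor `b` is in `D'` and conversely an edge of `D'` containing neither `a` nor `b`
is in `D` (`mrg_adj`, `mg a b w = v ≠ a` implies `w = v`); the edges containing `a` or `b` are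
determined by `nb D a` and `nb D b`.  (Show `(gr D₁).Adj u v ↔ (gr D₂).Adj u v` and use
`mem_iff_adj`.)  So their number is at most `2 ^ dg D' a * 2 ^ dg D' a = 4 ^ dg D' a`.
-/

open Finset
open scoped Classical Nat

namespace Pool.Agent.Work.MP_73831e_pr.F

variable {n : ℕ}

private theorem adj_of {a b : Fin n} (hab : a ≠ b) {D₁ D₂ : Finset (Pr n)}
    (h1 : ¬ (gr D₁).Adj a b) (h : mrg a b D₁ = mrg a b D₂) (ha : nb D₁ a = nb D₂ a)
    (hb : nb D₁ b = nb D₂ b) {u v : Fin n} (huv : (gr D₁).Adj u v) : (gr D₂).Adj u v := by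
  have hnb : ∀ (D : Finset (Pr n)) (x y : Fin n), y ∈ nb D x ↔ (gr D).Adj x y := by
    intro D x y
    rw [nb, mem_filter]
    exact ⟨fun h => h.2, fun h => ⟨mem_univ _, h⟩⟩
  by_cases hua : u = a
  · subst hua
    rw [← hnb, ← ha, hnb]
    exact huv
  by_cases hub : u = b
  · subst hub
    rw [← hnb, ← hb, hnb]
    exact huv
  by_cases hva : v = a
  · subst hva
    apply SimpleGraph.Adj.symm
    rw [← hnb, ← ha, hnb]
    exact huv.symm
  by_cases hvb : v = b
  · subst hvb
    apply SimpleGraph.Adj.symm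
    rw [← hnb, ← hb, hnb]
    exact huv.symm
  have h2 := mrg_adj_mg h1 huv
  rw [mg_ne hub, mg_ne hvb, h, mrg_adj] at h2
  obtain ⟨_, u', v', h3, h4, h5⟩ := h2
  have key : ∀ w w' : Fin n, mg a b w' = w → w ≠ a → w' = w := by
    intro w w' hw hwa
    by_cases hw' : w' = b
    · rw [hw', mg_b] at hw
      exact absurd hw.symm hwa
    · rw [mg_ne hw'] at hw
      exact hw
  rw [key u u' h4 hua, key v v' h5 hva] at h3
  exact h3

theorem pre_mrg {a b : Fin n} (hab : a ≠ b) (D' : Finset (Pr n)) :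
    (univ.filter (fun D : Finset (Pr n) => ¬ (gr D).Adj a b ∧ mrg a b D = D')).card ≤
      4 ^ dg D' a := by
  have h1 : (((nb D' a).powerset ×ˢ (nb D' a).powerset :
      Finset (Finset (Fin n) × Finset (Fin n)))).card = 4 ^ dg D' a := by
    rw [card_product, card_powerset, ← mul_pow]
    rfl
  rw [← h1]
  apply Finset.card_le_card_of_injOn (fun D => (nb D a, nb D b))
  · intro D hD
    have hD1 := (mem_filter.1 (mem_coe.1 hD)).2
    have h2 := nb_mrg_a D hab hD1.1
    rw [hD1.2] at h2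
    rw [mem_coe, mem_product, mem_powerset, mem_powerset, h2]
    exact ⟨subset_union_left, subset_union_right⟩
  · intro D₁ hD₁ D₂ hD₂ h
    have h2 := (mem_filter.1 (mem_coe.1 hD₁)).2
    have h3 := (mem_filter.1 (mem_coe.1 hD₂)).2
    have ha : nb D₁ a = nb D₂ a := congrArg Prod.fst h
    have hb : nb D₁ b = nb D₂ b := congrArg Prod.snd h
    have hm : mrg a b D₁ = mrg a b D₂ := h2.2.trans h3.2.symm
    ext e
    obtain ⟨e, he⟩ := e
    induction e using Sym2.ind with
    | _ u v =>
      rw [mem_iff_adj (E := D₁) (x := ⟨s(u, v), he⟩) rfl,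
        mem_iff_adj (E := D₂) (x := ⟨s(u, v), he⟩) rfl]
      exact ⟨adj_of hab h2.1 hm ha hb, adj_of hab h3.1 hm.symm ha.symm hb.symm⟩

end Pool.Agent.Work.MP_73831e_pr.F
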