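import Pool.Agent.Work.MP_73831e_pr.F.S4.Adj

/-!
MODULE S4/Spn (M).  Spanned and touching edges of the merged graph.

* `spn_mrg`: an edge `e` of `gr (mrg a b E)` inside `S` is `Sym2.map (mg a b) f` for an edge `f` of
  `gr E`; every end `w` of `f` is `b` or equals `mg a b w ∈ S`, so `f` is inside `insert b S`.  So the
  set of these `e` is contained in the image under `Sym2.map (mg a b)` of the set of the edges of
  `gr E` inside `insert b S` (`Set.ncard_image_le`).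
* `tch_mrg`: the same; if `v ∈ e`, `v ∈ T`, then `v = mg a b w` with `w ∈ f` and `w = b` or `w = v`.
* `deg_mrg`: `Nat.card (Fin n) = n`.  For `T = ∅` the left side is `0 < n`.  For `T` nonempty
  `|insert b T| ≤ |T| + 1 ≤ 2 |T|`; use the hypothesis for `insert b T` and `tch_mrg`.
-/

open Finset
open scoped Classical Nat

namespace Pool.Agent.Work.MP_73831e_pr.F

variable {n : ℕ}

theorem spn_mrg (a b : Fin n) (E : Finset (Pr n)) (S : Finset (Fin n)) :
    spn (gr (mrg a b E)) S ≤ spn (gr E) (insert b S) := by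
  unfold spn
  refine (Set.ncard_le_ncard (t := Sym2.map (mg a b) ''
    {f ∈ (gr E).edgeSet | ∀ v ∈ f, v ∈ insert b S}) ?_ (Set.toFinite _)).trans
    (Set.ncard_image_le (Set.toFinite _))
  rintro e ⟨he, hS⟩
  obtain ⟨x, hx, rfl⟩ := mem_edgeSet_gr.1 he
  unfold mrg at hx
  obtain ⟨-, f, hf, hfx⟩ := mem_filter.1 hx
  refine ⟨f.1, ⟨mem_edgeSet_gr.2 ⟨f, hf, rfl⟩, fun w hw => ?_⟩, hfx⟩
  rw [mem_insert]
  by_cases hwb : w = b
  · exact Or.inl hwb
  · right
    apply hS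
    rw [← hfx, Sym2.mem_map]
    exact ⟨w, hw, mg_ne hwb⟩

theorem tch_mrg (a b : Fin n) (E : Finset (Pr n)) (T : Finset (Fin n)) :
    tch (gr (mrg a b E)) T ≤ tch (gr E) (insert b T) := by
  unfold tch
  refine (Set.ncard_le_ncard (t := Sym2.map (mg a b) ''
    {f ∈ (gr E).edgeSet | ∃ v ∈ f, v ∈ insert b T}) ?_ (Set.toFinite _)).trans
    (Set.ncard_image_le (Set.toFinite _))
  rintro e ⟨he, v, hv, hT⟩
  obtain ⟨x, hx, rfl⟩ := mem_edgeSet_gr.1 he
  unfold mrg at hx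
  obtain ⟨-, f, hf, hfx⟩ := mem_filter.1 hx
  refine ⟨f.1, ⟨mem_edgeSet_gr.2 ⟨f, hf, rfl⟩, ?_⟩, hfx⟩
  rw [← hfx, Sym2.mem_map] at hv
  obtain ⟨w, hw, hwv⟩ := hv
  refine ⟨w, hw, ?_⟩
  rw [mem_insert]
  by_cases hwb : w = b
  · exact Or.inl hwb
  · right
    rw [mg_ne hwb] at hwv
    rwa [hwv]

theorem deg_mrg {K₂ K₃ : ℕ} (a b : Fin n) {E : Finset (Pr n)} (h : DegOK K₂ K₃ (gr E)) :
    DegOK K₂ (2 * K₃) (gr (mrg a b E)) := by
  intro T hT
  rcases T.eq_empty_or_nonempty with rfl | hne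
  · have h0 : tch (gr (mrg a b E)) ∅ = 0 := by
      unfold tch
      have h1 : {e ∈ (gr (mrg a b E)).edgeSet | ∃ v ∈ e, v ∈ (∅ : Finset (Fin n))} = ∅ := by
        ext e
        simp
      rw [h1, Set.ncard_empty]
    rw [h0, mul_zero, Nat.card_eq_fintype_card, Fintype.card_fin]
    exact a.pos
  · have h1 : (insert b T).card ≤ T.card + 1 := card_insert_le b T
    have h2 : 1 ≤ T.card := hne.card_pos
    have h3 : K₃ * (insert b T).card ≤ 2 * K₃ * T.card := by
      calc K₃ * (insert b T).card ≤ K₃ * (2 * T.card) := Nat.mul_le_mul_left _ (by omega)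
        _ = 2 * K₃ * T.card := by ring
    exact lt_of_le_of_lt (Nat.mul_le_mul_left _ (tch_mrg a b E T)) (h _ (h3.trans hT))

end Pool.Agent.Work.MP_73831e_pr.F
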