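import Pool.Agent.Work.MP_73831e_pr.F.S4.Pre
import Pool.Agent.Work.MP_73831e_pr.F.S2.Nu

/-!
MODULE S4/Sum (M).  The sum over all merged pairs.

Write `T = C n`.  For `(D, x)` with `|D| ≤ T` and `Q D x` choose `a, b` by `hQ`; call the quadruple
`(D, x, a, b)` good if it has the properties in `hQ`.  Then
`∑_{|D| ≤ T} nu D #{x | Q D x} = ∑_{(D, x)} nu D ≤ ∑_{good (D, x, a, b)} nu D`.
Sort the good quadruples by `(D', x, a, b)`, `D' = mrg a b D`: here `|D'| < |D| ≤ T`, `Q' D' x`,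
`dg D' x ≤ j`, `a ∈ nb D' x`, `dg D' a ≤ K'`, and for fixed `(D', x, a, b)` there are at most
`4 ^ dg D' a ≤ 4 ^ K'` graphs `D` (`pre_mrg`), each with `nu D ≤ 4 C / n * nu D'` (`hnu`).  For fixed
`(D', x)` there are at most `j` vertices `a` and at most `n` vertices `b`.  Total
`≤ ∑_{|D'| ≤ T} ∑_{x | Q' D' x} j * n * 4 ^ K' * (4 C / n) * nu D'`.
(`nu D' ≥ 0` by `nu_nonneg`; `Finset.sum_comm`, `Finset.sum_fiberwise`, or an injection into a
sigma type.)
-/

open Finset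
open scoped Classical Nat

namespace Pool.Agent.Work.MP_73831e_pr.F

theorem mrg_sum {n C j K' : ℕ} (hn : 0 < n)
    (hnu : ∀ D D' : Finset (Pr n), D'.card < D.card → D.card ≤ C * n →
      nu D ≤ 4 * (C : ℝ) / n * nu D')
    {Q Q' : Finset (Pr n) → Fin n → Prop}
    (hQ : ∀ D x, D.card ≤ C * n → Q D x → ∃ a b, a ≠ b ∧ ¬ (gr D).Adj a b ∧
      a ∈ nb (mrg a b D) x ∧ dg (mrg a b D) x ≤ j ∧ dg (mrg a b D) a ≤ K' ∧
      (mrg a b D).card < D.card ∧ Q' (mrg a b D) x) :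
    ∑ D ∈ univ.filter (fun D : Finset (Pr n) => D.card ≤ C * n),
        nu D * ((univ.filter (fun x => Q D x)).card : ℝ) ≤
      4 * C * j * 4 ^ K' * ∑ D ∈ univ.filter (fun D : Finset (Pr n) => D.card ≤ C * n),
        nu D * ((univ.filter (fun x => Q' D x)).card : ℝ) := by
  sorry

end Pool.Agent.Work.MP_73831e_pr.F
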