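import Pool.Agent.Work.MP_73831e_pr.F.S2.Nu

/-!
MODULE S4/Wt (S-M).  Comparison of the weights of graphs with different numbers of edges.

Let `N = NN n = n (n - 1) / 2`, `T = C n`, `n ≥ n₀ = 4 C + 2`, so `4 (N - T) ≥ n ^ 2` and `T ≤ N - T`
(`4 N = 2 n (n - 1)`, `2 n (n - 1) - 4 C n ≥ n ^ 2` iff `n ≥ 4 C + 2`; `8 C n ≤ 2 n (n - 1)`... take
`n₀ = 4 C + 2`, or larger if convenient).  With `d' = |D'| < d = |D| ≤ T`:
`nu D / nu D' = ∏_{d' ≤ i < d} (i + 1) / (N - i)`, every factor is `≤ T / (N - T) ≤ min(1, 4 C / n)`.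
(Suggestion: let `φ i = i! (N - i)!`; for `i < T`, `φ (i + 1) (N - i) = φ i (i + 1)`, so
`φ (i + 1) ≤ (T / (N - T)) φ i ≤ φ i`; use `Nat.le_induction` for `φ d ≤ φ (d' + 1)` and one step
`φ (d' + 1) ≤ (4 C / n) φ d'`.)
-/

open Finset
open scoped Classical Nat

namespace Pool.Agent.Work.MP_73831e_pr.F

private theorem wt_key {C n N d d' : ℕ} (hC : 1 ≤ C) (hn : 4 * C + 2 ≤ n)
    (hN : 2 * N = n * (n - 1)) (hd : d' < d) (hdT : d ≤ C * n) :
    n * ((d)! * (N - d)!) ≤ 4 * C * ((d')! * (N - d')!) := by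
  obtain ⟨r, rfl⟩ : ∃ r, n = 4 * C + 2 + r := ⟨n - (4 * C + 2), by omega⟩
  set n := 4 * C + 2 + r with hn'
  have h1 : n - 1 = 4 * C + 1 + r := by omega
  rw [h1] at hN
  have hT1 : 4 * (C * n) + n * n ≤ 4 * N := by nlinarith
  have hT2 : 2 * (C * n) ≤ N := by nlinarith
  have hn0 : 0 < n := by omega
  have step : ∀ i, i + 1 ≤ C * n →
      ((i + 1)! * (N - (i + 1))!) * (N - i) = ((i)! * (N - i)!) * (i + 1) := by
    intro i hi
    obtain ⟨e, he⟩ : ∃ e, N = i + 1 + e := ⟨N - (i + 1), by omega⟩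
    have e1 : N - (i + 1) = e := by omega
    have e2 : N - i = e + 1 := by omega
    rw [e1, e2, Nat.factorial_succ, Nat.factorial_succ e]
    ring
  have mono : ∀ i, i + 1 ≤ C * n → (i + 1)! * (N - (i + 1))! ≤ (i)! * (N - i)! := by
    intro i hi
    have h2 := step i hi
    have h3 : 0 < N - i := by omega
    refine Nat.le_of_mul_le_mul_right ?_ h3
    rw [h2]
    exact Nat.mul_le_mul_left _ (by omega)
  have chain : (d)! * (N - d)! ≤ (d' + 1)! * (N - (d' + 1))! := by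
    have h4 : ∀ e, d' + 1 ≤ e → e ≤ C * n → (e)! * (N - e)! ≤ (d' + 1)! * (N - (d' + 1))! := by
      intro e he
      induction e, he using Nat.le_induction with
      | base => intro _; exact le_rfl
      | succ m hm ih =>
        intro hmT
        exact (mono m hmT).trans (ih (by omega))
    exact h4 d hd hdT
  refine (Nat.mul_le_mul_left n chain).trans ?_
  have h5 := step d' (by omega)
  have h6 : 0 < N - d' := by omega
  refine Nat.le_of_mul_le_mul_right ?_ h6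
  rw [mul_assoc, h5]
  have h7 : (d' + 1) * n ≤ C * n * n := Nat.mul_le_mul_right _ (by omega)
  have h8 : n * n ≤ 4 * (N - d') := by omega
  have h9 : C * n * n ≤ C * (4 * (N - d')) := by
    rw [mul_assoc]
    exact Nat.mul_le_mul_left _ h8
  have h10 : ((d')! * (N - d')!) * ((d' + 1) * n) ≤ ((d')! * (N - d')!) * (C * (4 * (N - d'))) :=
    Nat.mul_le_mul_left _ (h7.trans h9)
  calc n * ((d')! * (N - d')! * (d' + 1)) = ((d')! * (N - d')!) * ((d' + 1) * n) := by ring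
    _ ≤ ((d')! * (N - d')!) * (C * (4 * (N - d'))) := h10
    _ = 4 * C * ((d')! * (N - d')!) * (N - d') := by ring

theorem nu_lt (C : ℕ) (hC : 1 ≤ C) : ∃ n₀ : ℕ, ∀ n ≥ n₀, ∀ D D' : Finset (Pr n),
    D'.card < D.card → D.card ≤ C * n → nu D ≤ 4 * (C : ℝ) / n * nu D' := by
  refine ⟨4 * C + 2, fun n hn D D' hd hdT => ?_⟩
  have h1 := wt_key hC hn (two_NN n) hd hdT
  have hn0 : (0 : ℝ) < n := by
    have : 0 < n := by omega
    exact_mod_cast this
  unfold nu
  have hN : Fintype.card (Pr n) = NN n := rfl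
  rw [hN]
  have h2 : (n : ℝ) * (((D.card)! : ℝ) * ((NN n - D.card)! : ℝ)) ≤
      4 * C * (((D'.card)! : ℝ) * ((NN n - D'.card)! : ℝ)) := by exact_mod_cast h1
  have h3 : (0 : ℝ) < ((NN n + 1)! : ℝ) := by positivity
  rw [div_mul_div_comm, div_le_div_iff₀ h3 (by positivity)]
  have h4 := mul_le_mul_of_nonneg_right h2 h3.le
  linarith

end Pool.Agent.Work.MP_73831e_pr.F
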