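import Pool.Agent.Work.MP_73831e_pr.F.S4.Pick
import Pool.Agent.Work.MP_73831e_pr.F.S4.NotFa
import Pool.Agent.Work.MP_73831e_pr.F.S4.CardM
import Pool.Agent.Work.MP_73831e_pr.F.S4.Wt
import Pool.Agent.Work.MP_73831e_pr.F.S4.Sum
import Pool.Agent.Work.MP_73831e_pr.F.S2.Smass

/-!
MODULE S4/Step (M).  The merging step: from degree `≤ j + 1` to degree `≤ j` (`j ≥ m + 1`).

Let `n` be large (`smass_le`, `nu_lt`, `2 K₁ ≤ n`, `m ≤ n / (2 K₁) + 1`, `M ≤ n / K₁ + 1`), `T = C n`,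
`R = (j + 1) ^ 2`, `K = 2 K₃`.
By `discard`: `mass (Ql (j+1) K') ≤ mass (Ql (j+1) K' ∧ Gp) + 8 C err`.
Let `Q D x := FC m M D x ∧ Ql (j+1) K' D x ∧ Gp K₁ K₃ K₄ L m R K D x ∧ dg D x = j + 1` and
`Q' D x := Fa m M (D \ st x) ∧ ¬ Fa m M D ∧ Ql j (2 K') D x`.
A pair counted in `mass (Ql (j+1) K' ∧ Gp)` is counted in `mass (Ql j (2 K'))` (if `dg D x ≤ j`) or
satisfies `Q`.  So (`n * ∑ ...`, cardinality of a union, `nu ≥ 0`)
`mass (Ql (j+1) K' ∧ Gp) ≤ mass (Ql j (2K')) + n ∑_{|D| ≤ T} nu D #{x | Q D x}`.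
Hypothesis of `mrg_sum` (with `2 K'` for `K'`): for `Q D x` and `|D| ≤ T` take `a, b` from `pick`
(`dg D x = j + 1 ≥ m + 2`); `a ≠ b`, not adjacent, `ql_mrg` gives `Ql j (2K') (mrg a b D) x`,
`a ∈ nb (mrg a b D) x`, `dg (mrg a b D) a ≤ 2 K'` (and `dg (mrg a b D) x ≤ j`), `mrg_card_lt` the
cardinality, `Q' (mrg a b D) x`: `mrg a b D \ st x = mrg a b (D \ st x)` (`mrg_sdiff_st`; `a, b ≠ x`) is
in `Fa` by `pick`; `¬ Fa m M (mrg a b D)` by `mrg_notFa` (`FC` gives `¬ Fa m M D`, `Gp` gives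
`Sparse (n / K₁) (gr D)`).  So with `A' = 4 C j 4 ^ (2 K')`
`n ∑ nu D #{x | Q D x} ≤ A' smass (Ql j (2K')) ≤ A' C₁ mass (Ql j (2K'))` by `smass_le`, `hered_ql`.
`A = 1 + A' C₁`.
-/

open Finset
open scoped Classical Nat

namespace Pool.Agent.Work.MP_73831e_pr.F

private theorem filt_card {α : Type} [Fintype α] {p q : α → Prop} {_ : DecidablePred p}
    {_ : DecidablePred q} (h : ∀ x, p x ↔ q x) :
    (univ.filter p).card = (univ.filter q).card := by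
  congr 1
  ext x
  rw [mem_filter, mem_filter, h x]

private theorem mass_eq {n : ℕ} (m M T : ℕ) (Q : Finset (Pr n) → Fin n → Prop) :
    mass m M T Q = n * ∑ D ∈ univ.filter (fun D : Finset (Pr n) => D.card ≤ T),
      nu D * ((univ.filter (fun x => (fun D x => FC m M D x ∧ Q D x) D x)).card : ℝ) := by
  unfold mass
  congr! 4

private theorem smass_eq {n : ℕ} (m M T : ℕ) (Q : Finset (Pr n) → Fin n → Prop) :
    smass m M T Q = n * ∑ D ∈ univ.filter (fun D : Finset (Pr n) => D.card ≤ T),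
      nu D * ((univ.filter (fun x =>
        (fun D x => Fa m M (D \ st x) ∧ ¬ Fa m M D ∧ Q D x) D x)).card : ℝ) := by
  unfold smass
  congr! 4

private theorem merge_main {n m M C K₁ K₃ K₄ L j K' : ℕ} (hm : 2 ≤ m) (hM : 6 ≤ M) (hK1 : 1 ≤ K₁)
    (hK3 : 4 * K₁ ≤ K₃) (hj : m + 1 ≤ j) (e4 : 2 * K₁ ≤ n) (e5 : 0 < n)
    (e6 : m ≤ n / (2 * K₁) + 1) (e7 : M ≤ n / K₁ + 1)
    (hnu : ∀ D D' : Finset (Pr n), D'.card < D.card → D.card ≤ C * n →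
      nu D ≤ 4 * (C : ℝ) / n * nu D') :
    mass (n := n) m M (C * n) (fun D x => (Ql (j + 1) K' D x ∧
        Gp K₁ K₃ K₄ L m ((j + 1) ^ 2) (2 * K₃) D x) ∧ ¬ dg D x ≤ j) ≤
      4 * C * j * 4 ^ (2 * K') * smass (n := n) m M (C * n) (Ql j (2 * K')) := by
  rw [mass_eq, smass_eq]
  have h3 := mrg_sum (n := n) (C := C) (j := j) (K' := 2 * K') e5 hnu
    (Q := fun D x => FC m M D x ∧ ((Ql (j + 1) K' D x ∧
      Gp K₁ K₃ K₄ L m ((j + 1) ^ 2) (2 * K₃) D x) ∧ ¬ dg D x ≤ j))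
    (Q' := fun D x => Fa m M (D \ st x) ∧ ¬ Fa m M D ∧ Ql j (2 * K') D x) (by
      rintro D x - ⟨hfc, ⟨hql, hgp⟩, hdg⟩
      have hd1 : dg D x ≤ j + 1 := hql.1
      obtain ⟨a, ha, b, hb, hab, hadj, hFa⟩ := pick hm hM hK1 hK3 e4 e6 hfc hgp hd1 (by omega)
      have hne : ∀ y ∈ nb D x, x ≠ y := by
        intro y hy
        rw [nb, mem_filter] at hy
        exact hy.2.ne
      obtain ⟨g1, g2, g3⟩ := ql_mrg ha hb hab hadj hql
      refine ⟨a, b, hab, hadj, g2, g1.1, g3, mrg_card_lt hab ha hb, ?_, ?_, g1⟩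
      · rw [mrg_sdiff_st (hne a ha) (hne b hb)]
        exact hFa
      · exact mrg_notFa hm (by omega) e7 hadj hgp.1.sp hfc.1)
  have hn0 : (0 : ℝ) ≤ n := Nat.cast_nonneg n
  have h4 := mul_le_mul_of_nonneg_left h3 hn0
  refine le_trans (le_of_eq ?_) (h4.trans (le_of_eq ?_))
  · congr! 4
    exact filt_card fun _ => Iff.rfl
  · rw [mul_left_comm]
    congr! 5
    exact filt_card fun _ => Iff.rfl

theorem merge_step {m M C K₁ K₃ K₄ : ℕ} (hm : 2 ≤ m) (hM : 6 ≤ M) (hC : 1 ≤ C) (hK1 : 1 ≤ K₁)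
    (hK3 : 4 * K₁ ≤ K₃) (j K' : ℕ) (hj : m + 1 ≤ j) :
    ∃ A : ℝ, 0 < A ∧ ∀ L, ∃ n₀, ∀ n ≥ n₀,
      mass m M (C * n) (Ql (j + 1) K' : Finset (Pr n) → Fin n → Prop) ≤
        A * mass m M (C * n) (Ql j (2 * K') : Finset (Pr n) → Fin n → Prop) +
          8 * C * err m M C K₁ K₃ K₄ L ((j + 1) ^ 2) (2 * K₃) n := by
  obtain ⟨C₁, hC₁, n1, hsm⟩ := smass_le C hC
  obtain ⟨n2, hnu⟩ := nu_lt C hC
  refine ⟨1 + 4 * C * j * 4 ^ (2 * K') * C₁, by positivity, fun L =>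
    ⟨n1 + n2 + 2 * K₁ * (m + M + 1), fun n hn => ?_⟩⟩
  have e1 : n1 ≤ n := by omega
  have e2 : n2 ≤ n := by omega
  have e3 : 2 * K₁ * (m + M + 1) ≤ n := by omega
  have e4 : 2 * K₁ ≤ n := le_trans (Nat.le_mul_of_pos_right _ (by omega)) e3
  have e5 : 0 < n := by omega
  have e6 : m ≤ n / (2 * K₁) + 1 := by
    have : m ≤ n / (2 * K₁) := by
      rw [Nat.le_div_iff_mul_le (by omega)]
      calc m * (2 * K₁) = 2 * K₁ * m := by ring
        _ ≤ 2 * K₁ * (m + M + 1) := Nat.mul_le_mul_left _ (by omega)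
        _ ≤ n := e3
    omega
  have e7 : M ≤ n / K₁ + 1 := by
    have : M ≤ n / K₁ := by
      rw [Nat.le_div_iff_mul_le (by omega)]
      calc M * K₁ = K₁ * M := by ring
        _ ≤ K₁ * (2 * (m + M + 1)) := Nat.mul_le_mul_left _ (by omega)
        _ = 2 * K₁ * (m + M + 1) := by ring
        _ ≤ n := e3
    omega
  have h4 := hsm n e1 m M (Ql j (2 * K')) (hered_ql j (2 * K'))
  have h5 := merge_main (n := n) (m := m) (M := M) (C := C) (K₁ := K₁) (K₃ := K₃) (K₄ := K₄)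
    (L := L) (j := j) (K' := K') hm hM hK1 hK3 hj e4 e5 e6 e7 (hnu n e2)
  have h6 := mass_split (n := n) (m := m) (M := M) (T := C * n) (fun D x => Ql (j + 1) K' D x ∧
    Gp K₁ K₃ K₄ L m ((j + 1) ^ 2) (2 * K₃) D x) (fun (D : Finset (Pr n)) x => dg D x ≤ j)
  have h7 := discard (n := n) (m := m) (M := M) (C := C) (K₁ := K₁) (K₃ := K₃) (K₄ := K₄) (L := L)
    (R := (j + 1) ^ 2) (K := 2 * K₃) (Ql (j + 1) K')
  have h8 : mass (n := n) m M (C * n) (fun D x => (Ql (j + 1) K' D x ∧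
      Gp K₁ K₃ K₄ L m ((j + 1) ^ 2) (2 * K₃) D x) ∧ dg D x ≤ j) ≤
      mass m M (C * n) (Ql j (2 * K') : Finset (Pr n) → Fin n → Prop) := by
    apply mass_mono
    rintro D x - - ⟨⟨h1, -⟩, h2⟩
    exact ⟨h2, fun t ht => (h1.2 t ht).trans (by omega)⟩
  have h9 : (0 : ℝ) ≤ 4 * C * j * 4 ^ (2 * K') := by positivity
  have h10 := mul_le_mul_of_nonneg_left h4 h9
  generalize mass m M (C * n) (Ql j (2 * K') : Finset (Pr n) → Fin n → Prop) = X at *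
  linarith

end Pool.Agent.Work.MP_73831e_pr.F
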